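import Pool.Agent.R299.CDE.Main
import Pool.Agent.R299.CDE.Face

/-!
# The nef cone conjecture for pairs passes to products, ramified finite quotients and contractions

Let `(X i, Δ i)` be finitely many klt Calabi-Yau pairs, all except one with `h^1(O) = 0`, `X` their
product with the boundary `Δ_X`, the sum of the pullbacks of the `Δ i`, and `G` **any** finite group of
automorphisms of `(X, Δ_X)`. It need not act freely: there can be fixed points and reflections, and
`G` can permute the factors. Let `q : X → Y = X / G`, and let `Δ` be the divisor on `Y` with
`K_X + Δ_X = q^* (K_Y + Δ)`, given by the ramification and the image of `Δ_X`. Then `(Y, Δ)` is a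
klt Calabi-Yau pair.

**Theorem.** If the cone conjecture holds for the pairs `(X i, Δ i)`, then it holds for `(Y, Δ)`, and for
`(Y', f_* Δ)` for every birational contraction `f : Y → Y'`.

So the class of the klt Calabi-Yau pairs with the cone conjecture is closed under products, quotients by
finite groups and birational contractions.

It is known for all pairs of dimension two (Totaro), abelian varieties (Prendergast-Smith) and
irreducible holomorphic symplectic manifolds (Amerik-Verbitsky, Markman). So it holds for
all the quotients, by arbitrary finite groups, of products of klt Calabi-Yau pairs of dimension two,
hyperkähler manifolds, and an abelian variety, in any dimension: for instance for `(S × S') / G` with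
rational elliptic surfaces `S`, `S'` with infinite automorphism groups (where the nef cones of the
factors are not polyhedral), and for all finite quotients of products of K3 surfaces or of
hyperkähler manifolds. No such result for quotients by groups which do not act freely was known, as far
as I know, except for torus quotients and surfaces.

## The Lean statement

The theorem is about the cones of the varieties: `Cones` consists of the integral classes, the nef cone
and the effective cone in `N^1`, and `IsProjective` are the properties of these cones which hold for
all projective varieties. `Preserved` says that a group of linear maps, such as the image of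
`Aut(X, Δ_X)` in `GL(N^1(X))`, preserves the three of them. `N^1(X)` is the direct sum of the
`N^1(X i)`, and a class is nef (effective) if and only if its components are (`prodCones`). The group
`𝒜` is the image of `Aut(X, Δ_X)`; it contains the products of elements of the images `𝒢 i` of
`Aut(X i, Δ i)`. The hypotheses of `IsFiniteQuotient` are the well known relations between the cones of
`X` and `Y = X / G` (norms of line bundles and of sections). The last of them says that a subgroup of
finite index in the centralizer of `G` in `𝒜` consists of classes of automorphisms of `(X, Δ_X)` which
commute with `G`. These preserve the ramification, so they come from automorphisms of `(Y, Δ)`. This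
hypothesis holds: the kernel of `Aut(X, Δ_X) → GL(N^1(X))` is an extension of a finite group by the
connected component `A` of `Aut(X, Δ_X)`, which is an abelian variety, since the additive and the
multiplicative group do not act on klt Calabi-Yau pairs, and `H^1(G, A)` is finite. So, up to
conjugation by `A`, there are only finitely many homomorphisms from `G` to the group generated by `G`
and the kernel which agree with the given one modulo the kernel.

The first conclusion is: there is a rational polyhedral fundamental domain for `Aut(Y, Δ)` on
`Nef^e(Y)`, and `Nef^e(Y) = Nef^+(Y)`, the convex hull of the rational nef classes. The second one is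
the same for every contraction `Y'` of `Y` (`IsContraction`): the pullback `j` identifies the nef cone of
`Y'` with a face of the nef cone of `Y`, and the automorphisms of `(Y, Δ)` which preserve the space of
the pullbacks preserve this face and descend to automorphisms of `(Y', f_* Δ)`.

## The proof

Let `Π` be a rational polyhedral cone whose translates cover the ample cone of `X`. The *Siegel
property* (Looijenga; here with a short proof from Dickson's lemma) says that `γ Π ∩ Π` meets the
interior of the nef cone only for finitely many automorphisms `γ` of the lattice and the cone. Let `x`
be an ample class fixed by `G`, and `γ x` in `Π`. Then the elements `γ g γ⁻¹`, for `g` in `G`, fix the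
point `γ x` of `Π`, so they belong to a finite set. Hence `γ` belongs to one of finitely many cosets
`r (𝒜 ∩ C(G))`, and `x` is a translate, by an element which commutes with `G`, of a point of one of the
finitely many cones `r⁻¹ Π`. The sum over `G` maps these cones to rational polyhedral cones in the
space fixed by `G`. For a contraction, an interior point of the face `Nef(Y')` is in a translate `b Π` of
the fundamental domain, hence it is an interior point of a cone spanned by some of the generators of
`b Π`, which all belong to the face; there are finitely many sets `I` of generators of `Π`, and two
elements `b` for the same `I` differ by an element of the stabilizer of the face.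
-/

set_option autoImplicit false

namespace Pool.Agent.Results.MP_9f99c5_ag.FiniteQuotients

open Pool.Agent.R299.CDE

/-- **The cone conjecture for contractions of finite quotients of products of pairs.** If the cone
conjecture holds for the pairs `(X i, Δ i)` (with the cones `N i` and the groups `𝒢 i`), then it holds for
the quotients `Y = (∏ X i) / G` by finite groups (with the cones `M` and the group `ℬ`), and for all
contractions of `Y` (with the cones `M'` and the group `ℬ'`), and `Nef^e = Nef^+` for them. -/
theorem result {ι : Type} [Fintype ι] {W : ι → Type} [∀ i, NormedAddCommGroup (W i)]
    [∀ i, NormedSpace ℝ (W i)]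
    -- the factors `X i`
    (N : ∀ i, Cones (W i)) (hN : ∀ i, (N i).IsProjective) (𝒢 : ∀ i, LinGrp (W i))
    (hconj : ∀ i, (N i).ConeConjecture (𝒢 i))
    -- the product `X` of the `X i`
    (𝒜 : LinGrp (∀ i, W i)) (h𝒜 : (prodCones N).Preserved 𝒜)
    (hprod : ∀ γ : ∀ i, W i ≃ₗ[ℝ] W i, (∀ i, γ i ∈ 𝒢 i) → LinearEquiv.piCongrRight γ ∈ 𝒜)
    -- the quotient `Y = X / G`
    {V : Type} [NormedAddCommGroup V] [NormedSpace ℝ V] (M : Cones V) (hM : M.IsProjective)
    (ℬ : LinGrp V) (hℬ : M.Preserved ℬ) (G : LinGrp (∀ i, W i)) (q : V →ₗ[ℝ] ∀ i, W i)
    (hq : IsFiniteQuotient (prodCones N) 𝒜 G q M ℬ) :
    (M.ConeConjecture ℬ ∧ M.nefEff = M.nefPlus) ∧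
      ∀ {U : Type} [NormedAddCommGroup U] [NormedSpace ℝ U] (M' : Cones U) (ℬ' : LinGrp U)
        (j : U →ₗ[ℝ] V), M'.IsProjective → M'.Preserved ℬ' → IsContraction M ℬ j M' ℬ' →
          M'.ConeConjecture ℬ' ∧ M'.nefEff = M'.nefPlus := by
  obtain ⟨F, hF, hcov⟩ := prod_cover hN 𝒢 hconj 𝒜 hprod
  have h := quotient_main (prod_projective hN) h𝒜 F hF hcov hM hℬ hq
  exact ⟨h, fun M' ℬ' j hM' hℬ' hj => contraction_main hM hℬ h.1 hM' hℬ' hj⟩

end Pool.Agent.Results.MP_9f99c5_ag.FiniteQuotients
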