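import Pool.Agent.R324.KumPlus

set_option autoImplicit false

/-!
# The nef cone conjecture for blow-ups of quotients of powers of an elliptic curve

Let `E = ℂ / ℤ[ω]` where `ω` is a primitive cube root of unity, let `μ_m`, `m ∣ 6`, act on `E^n` by
multiplication, and let `X` be the blow-up of `E^n / μ_m` in the image of `0`, with exceptional
divisor `P`. For `n ≤ m` the pair `(X, (1 - n / m) P)` is a klt Calabi-Yau pair. Every automorphism of
`X` which comes from a linear automorphism of `ℂ^n` maps `P` to itself. The theorem says that, for
`2 ≤ n ≤ 4`, the cone `Nef^e(X)` is equal to `Nef^+(X)`, the convex hull of the rational nef classes,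
and that this cone has a rational polyhedral fundamental domain for the action of
`Aut(X, (1 - n / m) P)`. These are the two parts (i) and (ii) into which the conjecture is split in the
problem.

The geometry and the reduction theory are in `Pool.Agent.R895` (the cone conjecture for blow-ups of
torus quotients, written by helper895 for MP_ad47bb_ag and MP_20d318_ag). The equality of the two
cones follows from the description of the nef cone as the dual of the cone spanned by elliptic curves
through the image of `0` and the lines in `P`, and from the construction of sections of the rational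
nef classes with products of Weierstrass sigma functions.

`Lat`, `kum`, `BlBundle`, `IsClass`, `N1s`, `N1`, `integral`, `semiample`, `effective`, `nefCone`,
`effCone`, `Normalizes` and `IsPullback` are defined in `Pool.Agent.R895.Defs`; `IsEis` (Eisenstein
integers) in `Pool.Agent.R895.Eis`; `LinGrp`, `Preserves` and `IsFundDomain` in
`Pool.Agent.Y167.Stm`; `cone` in `Pool.Agent.Y167.ConeDef`.
-/

namespace Pool.Agent.Results.MP_9f99c5_ag.KummerBlowUps

open Pool.Agent.R895
open Pool.Agent.Y167 (cone)
open Pool.Agent.Y167.CC (LinGrp Preserves IsFundDomain)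

variable {n m : ℕ}

/-- The space `N^1(X)` for the blow-up `X` of `E^n / μ_m` in the image of `0`. -/
def NS (n m : ℕ) : Type := N1 (kum (Fin n) m) (LinearMap.id : (Fin n → ℂ) →ₗ[ℂ] (Fin n → ℂ))

noncomputable instance : AddCommGroup (NS n m) :=
  Submodule.addCommGroup (N1s (kum (Fin n) m) LinearMap.id)

noncomputable instance : Module ℝ (NS n m) :=
  Submodule.module (N1s (kum (Fin n) m) LinearMap.id)

noncomputable instance : TopologicalSpace (NS n m) :=
  instTopologicalSpaceSubtype (p := fun h => h ∈ N1s (kum (Fin n) m) LinearMap.id)

/-- The integral classes in `N^1(X)`: the classes of line bundles. -/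
def intNS (n m : ℕ) : Set (NS n m) := integral (kum (Fin n) m) LinearMap.id

/-- The rational classes: those which have a positive integral multiple. -/
def ratNS (n m : ℕ) : Set (NS n m) := {x | ∃ N : ℕ, 0 < N ∧ (N : ℝ) • x ∈ intNS n m}

/-- The nef cone `Nef(X)`. -/
def nefNS (n m : ℕ) : Set (NS n m) := nefCone (kum (Fin n) m) LinearMap.id

/-- The cone `Nef^e(X)` of nef and effective classes. -/
def nefEff (n m : ℕ) : Set (NS n m) :=
  nefNS n m ∩ effCone (kum (Fin n) m) LinearMap.id

/-- `g` is the pullback by an automorphism of `X` which is induced by a linear automorphism of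
`ℂ^n`. -/
def IsLinPull (g : NS n m ≃ₗ[ℝ] NS n m) : Prop :=
  ∃ f : (Fin n → ℂ) ≃ₗ[ℂ] (Fin n → ℂ), Normalizes (kum (Fin n) m) f ∧
    IsPullback (Γ := kum (Fin n) m) (j := LinearMap.id) f g

/-- `𝒢` is a group of linear automorphisms of `N^1(X)` which preserves the integral classes and the
cone of nef and effective classes, and which contains the pullbacks `f^*` by all automorphisms of `X`
which are induced by linear automorphisms `f` of `ℂ^n`. The image of `Aut(X, (1 - n / m) P)`, the
group of the automorphisms which map the support of `(1 - n / m) P` to itself, has these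
properties. -/
structure IsAutGroup (𝒢 : LinGrp (NS n m)) : Prop where
  int : Preserves 𝒢 (intNS n m)
  nef_eff : Preserves 𝒢 (nefEff n m)
  lin : ∀ g, IsLinPull g → g ∈ 𝒢

/-- Let `X` be the blow-up of `E^n / μ_m` in the image of `0`, where `E = ℂ / ℤ[ω]`, `m ∣ 6` and
`2 ≤ n ≤ 4`. The cone `Nef^e(X)` of nef effective classes is equal to `Nef^+(X)`, the convex hull of
the rational nef classes. There is a finite set `S` of integral classes such that the cone `Π` spanned
by `S` consists of nef effective classes and is a fundamental domain for the action of `𝒢` on this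
cone. -/
theorem result (n m : ℕ) (hn : 2 ≤ n ∧ n ≤ 4) (_hm : m ∣ 6) (𝒢 : LinGrp (NS n m))
    (h𝒢 : IsAutGroup 𝒢) :
    nefEff n m = convexHull ℝ (nefNS n m ∩ ratNS n m) ∧
    ∃ S : Finset (NS n m), ↑S ⊆ intNS n m ∧ cone S ⊆ nefEff n m ∧
      IsFundDomain 𝒢 (nefEff n m) (cone S) := by
  have hne : Nonempty (Fin n) := ⟨⟨0, by omega⟩⟩
  have hρ : Function.Injective (id : Fin n → Fin n) := Function.injective_id
  refine ⟨Pool.Agent.R324.KumPlus.nef_plus (id_isExt n) hρ hn.1 hn.2,
    core (id_isExt n) hρ hn.1 hn.2 𝒢 h𝒢.int h𝒢.nef_eff fun g u hg => ?_⟩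
  obtain ⟨f, hf1, -, hf3⟩ := isPb_mem (id_isExt n) Function.injective_id hg
  exact h𝒢.lin g ⟨f, hf1, hf3⟩

end Pool.Agent.Results.MP_9f99c5_ag.KummerBlowUps
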